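import Pool.Agent.N206.CG.Stm2

/-!
Project CG (helper206), part W2 (helper774): finite generation of restricted wreath products,
extension of automorphisms, uniqueness.
-/

namespace Pool.Agent.N774.CG.W2

open Pool.Agent.N206.CG

theorem sgl_same {Z A : Type} [Group A] (z : Z) (a : A) : (sgl z a).1 z = a := by
  simp [sgl]

theorem sgl_ne {Z A : Type} [Group A] {z y : Z} (a : A) (h : y ≠ z) : (sgl z a).1 y = 1 := by
  simp [sgl, h]

/-- finitely supported functions are products of the functions with one value -/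
theorem mem_aux {Z A : Type} [Group A] (T : Subgroup (FS Z A)) (hT : ∀ z a, sgl z a ∈ T)
    (s : Finset Z) : ∀ k : FS Z A, (∀ y, y ∉ s → k.1 y = 1) → k ∈ T := by
  classical
  induction s using Finset.induction_on with
  | empty =>
    intro k hk
    have : k = 1 := by
      apply Subtype.ext
      funext y
      exact hk y (by simp)
    rw [this]
    exact T.one_mem
  | insert z s hz ih =>
    intro k hk
    have h1 : (sgl z (k.1 z))⁻¹ * k ∈ T := by
      apply ih
      intro y hy
      change ((sgl z (k.1 z)).1 y)⁻¹ * k.1 y = 1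
      by_cases hyz : y = z
      · subst hyz
        rw [sgl_same]
        simp
      · rw [sgl_ne _ hyz, hk y (by simp [hyz, hy])]
        simp
    have h2 := T.mul_mem (hT z (k.1 z)) h1
    simpa using h2

theorem mem_all {Z A : Type} [Group A] (T : Subgroup (FS Z A)) (hT : ∀ z a, sgl z a ∈ T)
    (k : FS Z A) : k ∈ T := by
  have hf : (Function.mulSupport k.1).Finite := k.2
  refine mem_aux T hT hf.toFinset k ?_
  intro y hy
  by_contra h
  exact hy ((Set.Finite.mem_toFinset hf).2 h)

theorem wact_sgl {G Z A : Type} [Group G] [MulAction G Z] [Group A] (g : G) (z : Z) (a : A) :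
    wact G Z A g (sgl z a) = sgl (g • z) a := by
  apply Subtype.ext
  funext y
  change (sgl z a).1 (g⁻¹ • y) = (sgl (g • z) a).1 y
  by_cases h : y = g • z
  · rw [h, inv_smul_smul, sgl_same, sgl_same]
  · have h' : g⁻¹ • y ≠ z := by
      intro h2
      exact h (by rw [← h2, smul_inv_smul])
    rw [sgl_ne _ h, sgl_ne _ h']

section

variable (G : Type) [Group G] (U : Subgroup G)

/-- a subgroup of the wreath product containing the generators is everything -/
theorem top_of (C : Subgroup (Wr G U)) (h1 : ∀ g : G, SemidirectProduct.inr g ∈ C)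
    (h2 : ∀ z a, SemidirectProduct.inl (sgl z a) ∈ C) (w : Wr G U) : w ∈ C := by
  have h3 : ∀ k : FS (G ⧸ U) A5, (SemidirectProduct.inl k : Wr G U) ∈ C := by
    intro k
    have := mem_all (C.comap (SemidirectProduct.inl : FS (G ⧸ U) A5 →* Wr G U)) (fun z a => h2 z a) k
    exact this
  rw [← SemidirectProduct.inl_left_mul_inr_right w]
  exact C.mul_mem (h3 _) (h1 _)

theorem t_W2 : S_W2 G U := by
  intro hG
  obtain ⟨T, hT⟩ := Group.fg_def.1 hG
  classical
  set S : Set (Wr G U) := ((SemidirectProduct.inr : G →* Wr G U) '' (T : Set G)) ∪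
    Set.range (fun a : A5 => (SemidirectProduct.inl (sgl (((1 : G) : G ⧸ U)) a) : Wr G U)) with hS
  have hfin : S.Finite := (T.finite_toSet.image _).union (Set.finite_range _)
  refine Group.fg_def.2 ⟨hfin.toFinset, ?_⟩
  rw [Set.Finite.coe_toFinset]
  set C := Subgroup.closure S with hC
  have h1 : ∀ g : G, (SemidirectProduct.inr g : Wr G U) ∈ C := by
    intro g
    have hle : Subgroup.closure (T : Set G) ≤ C.comap (SemidirectProduct.inr : G →* Wr G U) := by
      rw [Subgroup.closure_le]
      intro t ht
      exact Subgroup.subset_closure (Or.inl ⟨t, ht, rfl⟩)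
    rw [hT] at hle
    exact hle (Subgroup.mem_top g)
  have h2 : ∀ z a, (SemidirectProduct.inl (sgl z a) : Wr G U) ∈ C := by
    intro z a
    obtain ⟨h, rfl⟩ := QuotientGroup.mk_surjective z
    have e : ((h : G) : G ⧸ U) = h • (((1 : G) : G ⧸ U)) := by
      rw [MulAction.Quotient.smul_coe, smul_eq_mul, mul_one]
    have h3 : (SemidirectProduct.inl (sgl (((1 : G) : G ⧸ U)) a) : Wr G U) ∈ C :=
      Subgroup.subset_closure (Or.inr ⟨a, rfl⟩)
    have h4 := C.mul_mem (C.mul_mem (h1 h) h3) (h1 h⁻¹)
    have h5 : (SemidirectProduct.inl (sgl ((h : G) : G ⧸ U) a) : Wr G U) =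
        SemidirectProduct.inr h * SemidirectProduct.inl (sgl (((1 : G) : G ⧸ U)) a) *
          SemidirectProduct.inr h⁻¹ := by
      rw [← SemidirectProduct.inl_aut, wact_sgl, ← e]
    rw [h5]
    exact h4
  rw [eq_top_iff]
  intro w _
  exact top_of G U C h1 h2 w

theorem t_WEXT : S_WEXT G U := by
  intro θ θ' h1 h2
  apply MulEquiv.ext
  intro w
  exact top_of G U (MonoidHom.eqLocus θ.toMonoidHom θ'.toMonoidHom) (fun g => h2 g)
    (fun z a => h1 z a) w

/-- renaming the coordinates -/
def ren {Z A : Type} [Group A] (π : Equiv.Perm Z) : FS Z A ≃* FS Z A where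
  toFun f := ⟨fun z => f.1 (π.symm z), by
    have h : (Function.mulSupport f.1).Finite := f.2
    have e : Function.mulSupport (fun z => f.1 (π.symm z)) =
        (fun z => π.symm z) ⁻¹' (Function.mulSupport f.1) := rfl
    change (Function.mulSupport (fun z => f.1 (π.symm z))).Finite
    rw [e]
    exact Set.Finite.preimage π.symm.injective.injOn h⟩
  invFun f := ⟨fun z => f.1 (π z), by
    have h : (Function.mulSupport f.1).Finite := f.2
    have e : Function.mulSupport (fun z => f.1 (π z)) =
        (fun z => π z) ⁻¹' (Function.mulSupport f.1) := rfl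
    change (Function.mulSupport (fun z => f.1 (π z))).Finite
    rw [e]
    exact Set.Finite.preimage π.injective.injOn h⟩
  left_inv f := by
    apply Subtype.ext
    funext z
    simp
  right_inv f := by
    apply Subtype.ext
    funext z
    simp
  map_mul' f f' := rfl

theorem ren_sgl {Z A : Type} [Group A] (π : Equiv.Perm Z) (z : Z) (a : A) :
    ren π (sgl z a) = sgl (π z) a := by
  apply Subtype.ext
  funext y
  change (sgl z a).1 (π.symm y) = (sgl (π z) a).1 y
  by_cases h : y = π z
  · rw [h, Equiv.symm_apply_apply, sgl_same, sgl_same]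
  · have h' : π.symm y ≠ z := by
      intro h2
      exact h (by rw [← h2, Equiv.apply_symm_apply])
    rw [sgl_ne _ h, sgl_ne _ h']

/-- changing the values -/
def val {Z A : Type} [Group A] (ψ : MulAut A) : FS Z A ≃* FS Z A where
  toFun f := ⟨fun z => ψ (f.1 z), by
    have h : (Function.mulSupport f.1).Finite := f.2
    refine h.subset ?_
    intro z hz hz'
    exact hz (by simp only [hz', map_one])⟩
  invFun f := ⟨fun z => ψ.symm (f.1 z), by
    have h : (Function.mulSupport f.1).Finite := f.2
    refine h.subset ?_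
    intro z hz hz'
    exact hz (by simp only [hz', map_one])⟩
  left_inv f := by
    apply Subtype.ext
    funext z
    simp
  right_inv f := by
    apply Subtype.ext
    funext z
    simp
  map_mul' f f' := by
    apply Subtype.ext
    funext z
    exact map_mul ψ _ _

theorem val_sgl {Z A : Type} [Group A] (ψ : MulAut A) (z : Z) (a : A) :
    val ψ (sgl z a) = sgl z (ψ a) := by
  apply Subtype.ext
  funext y
  change ψ ((sgl z a).1 y) = (sgl z (ψ a)).1 y
  by_cases h : y = z
  · rw [h, sgl_same, sgl_same]
  · rw [sgl_ne _ h, sgl_ne _ h, map_one]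

theorem t_W4 : S_W4 G U := by
  intro φ hφ
  have hrel : ∀ a b : G, (QuotientGroup.leftRel U) a b ↔
      (QuotientGroup.leftRel U) (φ.toEquiv a) (φ.toEquiv b) := by
    intro a b
    rw [QuotientGroup.leftRel_apply, QuotientGroup.leftRel_apply, hφ]
    change φ (a⁻¹ * b) ∈ U ↔ (φ a)⁻¹ * φ b ∈ U
    rw [map_mul, map_inv]
  let π : Equiv.Perm (G ⧸ U) := Quotient.congr φ.toEquiv hrel
  have hπ : ∀ g : G, π (g : G ⧸ U) = ((φ g : G) : G ⧸ U) := fun g => rfl
  have hsm : ∀ (g : G) (z : G ⧸ U), π (g • z) = φ g • π z := by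
    intro g z
    obtain ⟨h, rfl⟩ := QuotientGroup.mk_surjective z
    rw [MulAction.Quotient.smul_coe, hπ, hπ, MulAction.Quotient.smul_coe, smul_eq_mul, smul_eq_mul,
      map_mul]
  have hcomm : ∀ g : G, (wact G (G ⧸ U) A5 g).trans (ren π) =
      (ren π).trans (wact G (G ⧸ U) A5 (φ g)) := by
    intro g
    apply MulEquiv.ext
    intro f
    apply Subtype.ext
    funext z
    change f.1 (g⁻¹ • π.symm z) = f.1 (π.symm ((φ g)⁻¹ • z))
    have e : g⁻¹ • π.symm z = π.symm ((φ g)⁻¹ • z) := by
      apply π.injective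
      rw [hsm, Equiv.apply_symm_apply, Equiv.apply_symm_apply, map_inv]
    rw [e]
  refine ⟨SemidirectProduct.congr (ren π) φ hcomm, ?_, ?_, ?_⟩
  · intro g
    apply SemidirectProduct.ext
    · exact map_one (ren π)
    · rfl
  · intro w
    rfl
  · intro g a
    apply SemidirectProduct.ext
    · exact ren_sgl π _ a
    · exact map_one φ

theorem t_W5 : S_W5 G U := by
  intro ψ
  have hcomm : ∀ g : G, (wact G (G ⧸ U) A5 g).trans (val ψ) =
      (val ψ).trans (wact G (G ⧸ U) A5 ((MulEquiv.refl G) g)) := by
    intro g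
    apply MulEquiv.ext
    intro f
    rfl
  refine ⟨SemidirectProduct.congr (val ψ) (MulEquiv.refl G) hcomm, ?_, ?_, ?_⟩
  · intro g
    apply SemidirectProduct.ext
    · exact map_one (val ψ)
    · rfl
  · intro w
    rfl
  · intro z a
    apply SemidirectProduct.ext
    · exact val_sgl ψ z a
    · rfl

end

end Pool.Agent.N774.CG.W2
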